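import Pool.Agent.R790.AP.Cert

/-!
# A subset of `F_11^2` with 52 elements and no balanced weight on its `4`-term progressions
-/

set_option autoImplicit false
set_option maxRecDepth 100000

namespace Pool.Agent.H387.AP

open Pool.Agent.R790.AP
open Pool.Agent.Results.MP_b30443_co.BlockSymmetric (lam)

/-- table 0 for `k = 4`, `p = 11`, `d = 2` -/
def t4p11a : ℕ :=
  0x7c006c00463b380013000000001f007f7e48000061000d0000003f0000010000000000009379010000000000007a552900000b006c001700008e000d42005f01000000492e00003e007c7a374b00007e00080066000000005133000000007400001300007c0119000000000028003900003200867d00657c00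

/-- table 1 for `k = 4`, `p = 11`, `d = 2` -/
def t4p11b : ℕ :=
  0x180028004e595c008100000000750015164c000033008700000055000093000000000000011b930000000000001a3f6b0000890028007d0000060087520035930000004b6600005600181a5d49000016008c002e0000000043610000000020000081000018937b00000000006c005b000062000e17002f1800

theorem t4p11_check : check 11 2 8 296 t4p11a t4p11b [t4p11b, t4p11a] = true := by
  decide +kernel

theorem t4p11_count : cntB (memb 8 t4p11a) (11 ^ 2) = 52 := by
  decide +kernel

theorem t4p11_lam : ((52 : ℕ) : ℝ) ≤ lam 4 11 ^ 2 := by
  have : Fact (Nat.Prime 11) := ⟨by norm_num⟩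
  exact lam_ge 4 11 2 8 296 52 t4p11a t4p11b [t4p11b, t4p11a] (by norm_num) (by norm_num)
    (by norm_num) rfl t4p11_check t4p11_count

end Pool.Agent.H387.AP
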