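import Pool.Agent.R790.AP.Cert

/-!
# A subset of `F_13^2` with 68 elements and no balanced weight on its `4`-term progressions
-/

set_option autoImplicit false
set_option maxRecDepth 100000

namespace Pool.Agent.H387.AP

open Pool.Agent.R790.AP
open Pool.Agent.Results.MP_b30443_co.BlockSymmetric (lam)

/-- table 0 for `k = 4`, `p = 13`, `d = 2` -/
def t4p13a : ℕ :=
  0x530000550000000045008700800000000000000000006a0000007f00006600000000007450002200815e67457554000000477600008252008c0000008a005a0067000052645d000052810000000092008269005b000000008100005000008700350081470070000100916b005200000000008d770000000000716b4c008200815f00000000540000004600000079850000000000007b000085007e63962200004a7e5200220000006c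

/-- table 1 for `k = 4`, `p = 13`, `d = 2` -/
def t4p13b : ℕ :=
  0x650000630000000073003100380000000000000000004e0000003900005200000000004468009600375a51734364000000714200003666002c0000002e005e0051000066545b00006637000000002600364f005d00000000370000680000310083003771004800b700274d006600000000002b410000000000474d6c00360037590000000064000000720000003f330000000000003d000033003a55229600006e3a6600960000004c

theorem t4p13_check : check 13 2 8 368 t4p13a t4p13b [t4p13b, t4p13a] = true := by
  decide +kernel

theorem t4p13_count : cntB (memb 8 t4p13a) (13 ^ 2) = 68 := by
  decide +kernel

theorem t4p13_lam : ((68 : ℕ) : ℝ) ≤ lam 4 13 ^ 2 := by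
  have : Fact (Nat.Prime 13) := ⟨by norm_num⟩
  exact lam_ge 4 13 2 8 368 68 t4p13a t4p13b [t4p13b, t4p13a] (by norm_num) (by norm_num)
    (by norm_num) rfl t4p13_check t4p13_count

end Pool.Agent.H387.AP
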