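import Pool.Agent.R790.AP.Cert

/-!
# A subset of `F_17^2` with 105 elements and no balanced weight on its `4`-term progressions
-/

set_option autoImplicit false
set_option maxRecDepth 100000

namespace Pool.Agent.H387.AP

open Pool.Agent.R790.AP
open Pool.Agent.Results.MP_b30443_co.BlockSymmetric (lam)

/-- table 0 for `k = 4`, `p = 17`, `d = 2` -/
def t4p17a : ℕ :=
  0x747b12d0003b1a0000000000000086a40000000000d94aab8f68c0000002496000000085340000000000daaaa560003252000000000000000000000000000000000008b2c0000000000c304000ecf2d310000000bb7a0f800000000000000c1240000002eea91ec0000000000000000000000000000000ec80000913c000bc56055000000000000000000000c9e80000003134bb5c00000000000000000acadfd3c9a800072bb0bf0000000000243600035f4acb000000000006d3c0000003b4400000000002f538688000000000067d40000000000000242a000000083f80000000000d638000000323c0002426000000084080000000000d6beacdab0325c0001a8b000000000000000000000d81800000032440001c64c2fc000ea3c0008f9c00000020a40003266000000000000000002fe78f94000bc0800000000000003661a739dcfedc80008f74000bafc000000000000036b9ab8a7ca00000006b740000002151000000000000000000000c9bc00000030bb0003aee00000000002f37aa89adbc9740000000000000000000024700002ef60000000000000000030c30003affbcdc000000000082a000000000000002aa1cae327b0001c0f0002f3100000000000000d922aa900040000001ab3c2f0000ece2f8a0000000d8b80005f840000001b47c4c8000eb7c0000000000bba00000000000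

/-- table 1 for `k = 4`, `p = 17`, `d = 2` -/
def t4p17b : ℕ :=
  0x8218c77000028a000000000000006fec00000000001d492ec0004000000190e0000000715c00000000001be934e0000b52000000000000000000000000000000000006b640000000000338c00009a107300000003b19cac00000000000000356c0000000eba64a400000000000000000000000000000000a1000065540003a3dd4f0000000000000000000002ca80000000c703b340000000000000000049e5dd12ce800083d8ce50000000000196e00007b049e000000000008954000000026000000000000e51700800000000008ebc0000000000000197a00000007298000000000020580000000b68000197e0000000728800000000001fd52d74b90b4800023190000000000000000000001e780000000b60000214033940000c5400066f40000001d000000b3e000000000000000000dbd66fc0003a88000000000000007434f59fd508c8000671c0003b94000000000000006eb4b095da00000008b1c0000001c530000000000000000000002cd40000000ce900002b600000000000e6d4c0a2c92d1c0000000000000000000019340000eae000000000000000000ce100002a539b4000000000073f0000000000000013032bb0b2900021950000e73000000000000001d712fbf68c00000022f133a000009b0e1a00000001dd8000970c000000225d31c80000b1400000000003af00000000000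

theorem t4p17_check : check 17 2 14 31560 t4p17a t4p17b [t4p17b, t4p17a] = true := by
  decide +kernel

theorem t4p17_count : cntB (memb 14 t4p17a) (17 ^ 2) = 105 := by
  decide +kernel

theorem t4p17_lam : ((105 : ℕ) : ℝ) ≤ lam 4 17 ^ 2 := by
  have : Fact (Nat.Prime 17) := ⟨by norm_num⟩
  exact lam_ge 4 17 2 14 31560 105 t4p17a t4p17b [t4p17b, t4p17a] (by norm_num) (by norm_num)
    (by norm_num) rfl t4p17_check t4p17_count

end Pool.Agent.H387.AP
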