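import Pool.Agent.R790.AP.Cert

/-!
# A subset of `F_19^2` with 128 elements and no balanced weight on its `4`-term progressions
-/

set_option autoImplicit false
set_option maxRecDepth 100000

namespace Pool.Agent.H387.AP

open Pool.Agent.R790.AP
open Pool.Agent.Results.MP_b30443_co.BlockSymmetric (lam)

/-- table 0 for `k = 4`, `p = 19`, `d = 2` -/
def t4p19a : ℕ :=
  0x912adf30010000000000000020d14022c0c71b000023740000b8c000000000000000000002462000000000000005414000811c000b2ddc5a0001c6d00010b700000008aac000000000091eed3c00109a32f6c00000020c60000000401c00000000002aff136000217100000000000000b6780100000000000000080fc0000000000b091c4c0000000c4f800035c00000000000916ee02000000000014f5000000000000003a32ce800000000003125000210900000000002471000000b00000000000000571c0008158000ab2c0000000d01000000000000000000000923ad4d0000000003000000014e80000000422ab9100000002b4f1070002198000000000000000000000000000c000000000000000000f10b1480000000000c41c00000000008518000000000090f6dc7002400000015b100020760002e36721c000000000000031460001ff900000000000000b5b000a0000c205378000000100a0001c730000caf0000000c448000000000000000000002dd10000000000000000020690002ce1718ec6b71e0000000314f000220c00000000000000b5e00110000000567c0000000f0c810cf850001c7d00000000000000000000000000009138000000000000000000001532000207e0000000000000023ec000000174900000000002462b5f800000000000000c1856400008220f1100000000000c5ac4540000000000000000091e4000000000000040002ec800000000003e0ac9b70c00001a771190000000000000000024980000000b4bc0000000c01546800000000000000000000110b000000083e800000000000000000000000000140002e7558500020543a400007204000000313a000176e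

/-- table 1 for `k = 4`, `p = 19`, `d = 2` -/
def t4p19b : ℕ :=
  0x341835dc5300000000000000107f85205445390000a1cc000b9b4000000000000000000000cee00000000000000712c000442400012654f600014e3000209900000003a9400000000003354414c5327ad95d4000000108a0000000852400000000009a4401a0000fdf000000000000000ecb140000000000000004444000000000014b1504000000000480008f80000000000033d434e00000000001c5b000000000000008b104680000000000002b000104700000000000cdf0003145000000000000006e2400043e80001a14000000244f00000000000000000000033084030000000c5100000001c68000000083185bf000000099f40490000fb8000000000000000000000000314400000000000000000224013f800000000000124000000000040280000000000344c389c51c0000001b9f00010da000031a53240000000000000000a0001157000000000000000f93146000253071c8000000214600014dd00024a1000000000f800000000000000000000037f0000000000000000010e7000046f53b44e5536000000000010000f44000000000000000f6313f00000006ec4000000224444361cb00014d300000000000000000000000000003408000000000000000000001c1e00010d200000000000000a1540000001a0700000000000cee0f48000000000000025386f00000432223f000000000024f600ec00000000000000000335c0000000000c53c0009678000000000087384b55480000aacc037000000000000000000cb800000001084000000254f70d800000000000000000000204500000004158000000000000000000000000c52c00096cdbcb00010fc8b00000533c000000001600019e2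

theorem t4p19_check : check 19 2 14 25248 t4p19a t4p19b [t4p19b, t4p19a] = true := by
  decide +kernel

theorem t4p19_count : cntB (memb 14 t4p19a) (19 ^ 2) = 128 := by
  decide +kernel

theorem t4p19_lam : ((128 : ℕ) : ℝ) ≤ lam 4 19 ^ 2 := by
  have : Fact (Nat.Prime 19) := ⟨by norm_num⟩
  exact lam_ge 4 19 2 14 25248 128 t4p19a t4p19b [t4p19b, t4p19a] (by norm_num) (by norm_num)
    (by norm_num) rfl t4p19_check t4p19_count

end Pool.Agent.H387.AP
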