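import Pool.Agent.R790.AP.Cert

/-!
# A subset of `F_7^3` with 130 elements and no balanced weight on its `4`-term progressions
-/

set_option autoImplicit false
set_option maxRecDepth 100000

namespace Pool.Agent.H387.AP

open Pool.Agent.R790.AP
open Pool.Agent.Results.MP_b30443_co.BlockSymmetric (lam)

/-- table 0 for `k = 4`, `p = 7`, `d = 3` -/
def t4p7a : ℕ :=
  0x1b30c013b1db2800f4a780001659d800000062802622b0000244000000001300000010000000048ce0000234cc003ac00004700000000023000d2000001200004940000004827c00740015e000004c0000885959400000000083000000000002f40000003640139a68029a0078cac00f7008000000208000000002a800f9000022a00a7802561e00000000000002100000449cb4b0051c0000000009c000044ebc00000022b63000003a000000000bb004807c0000002640051c3800000001c0000330b962008c000000092d680133002dc009a28aa000009d9114e009e80000009d800014d00000015d002f000000000000faaa80000004c8020c004e801ce0000001ce00003800154003c87cb300002c6000000000000000000000011412000059400b50000284c9004867a006b8024000000c15e00000c1a6000056000ce004f40000003140000000440000000000000005080000004c000001d80000001c000000094800013aa580108000000000075a0000000000000000000000200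

/-- table 1 for `k = 4`, `p = 7`, `d = 3` -/
def t4p7b : ℕ :=
  0x9828c002b95a7000720b8000001158000000508006b3b00000880000000003600002bc0000002849800000989a001ec00006c000000000368009400002ba000010400000011850003f0016e000054c00002b00538000000000e3000000000002a4000000234002d0c80032003a8ec006fb28000000928000000002f0006d00000a2000b800774800000000000000bc0000151021b0007c00000000230000014c100000000a2030000292000000000ab0011a50000000068006196000000057c0000804e16a00270000000208300033002bc00cc8aaf8000015c897e00148000000158000019000000009002a8000000000006c08800000066800c00064800fe0000000fe00002180012001d250b300000060000000000000000000000486ba000000400b100000489d001145200478008c00004d96e00004d92600000380098000a40000002840000005540000000000000000900000000d800009580000009700000001e800002c0d801c40000000015f59000000000000000000002ca00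

theorem t4p7_check : check 7 3 9 716 t4p7a t4p7b [t4p7b, t4p7a] = true := by
  decide +kernel

theorem t4p7_count : cntB (memb 9 t4p7a) (7 ^ 3) = 130 := by
  decide +kernel

theorem t4p7_lam : ((130 : ℕ) : ℝ) ≤ lam 4 7 ^ 3 := by
  have : Fact (Nat.Prime 7) := ⟨by norm_num⟩
  exact lam_ge 4 7 3 9 716 130 t4p7a t4p7b [t4p7b, t4p7a] (by norm_num) (by norm_num)
    (by norm_num) rfl t4p7_check t4p7_count

end Pool.Agent.H387.AP
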