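import Pool.Agent.R790.AP.Cert

/-!
# A subset of `F_11^2` with 71 elements and no balanced weight on its `5`-term progressions
-/

set_option autoImplicit false
set_option maxRecDepth 100000

namespace Pool.Agent.H387.AP

open Pool.Agent.R790.AP
open Pool.Agent.Results.MP_b30443_co.BlockSymmetric (lam)

/-- table 0 for `k = 5`, `p = 11`, `d = 2` -/
def t5p11a : ℕ :=
  0x2ba7ae0eb7bacc8000ac8ab930000000ad5c000af44000ae14000ae8eb9c0002bb50002b900002b90ae1c000aeeeb71ae8c000af0800000000000002b84ad1ab9aad680000002c02ae0eb4fae7eb5c0002b76acd6b930000000ae3ab9f000000000000000002bb7b062b42aec4000ad9365cadfc000ac8ab6dadfc0000002b6dae100000000000ae00000ae9eb760002e0aae7ab4faca4000ad94000ae42ba50002b33ae76b5baf6000000000000000000acfab800002b59ad780000002b55ae0c000ae2c0000002bacae26bc9ad0ab82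

/-- table 1 for `k = 5`, `p = 11`, `d = 2` -/
def t5p11b : ℕ :=
  0x2b44ad4eb28ade4000ae3ab7c0000000ad50000acf4000adc8000ad2ab430002afd0002ba60002b0fad0c000ad02b6eacb4000ad3000000000000002b42adaab74adcc0000002c02ad52b68ad42b710002b52ae02b590000000adbeb37000000000000000002b37b062b66acf8000addf65cad98000ae62b66add80000002b66ad280000000000ae50000acfeb400002e0aad8ab6dae40000ad28000ad46b650002b8aadeaba8acac00000000000000000ae2eb6d0002b49adc80000002b76ae78000acf40000002b1dadfab4badfeb5b

/-- table 2 for `k = 5`, `p = 11`, `d = 2` -/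
def t5p11c : ℕ :=
  0x2b9baf16c2bb06c000b046b530000000b06c000ad54000ae0c000ae5ebb30002c0d0002b050002c33af74000adeebb3af44000ad5400000000000002be5b046b55af5c0000002969af0ec03ae4ebd70002be1b01eb990000000addebc5000000000000000002b95a446c21ae4c000aeec001ae9c000aff6bcbae1c0000002bcbaf540000000000ad24000ae96c050002149adc6bf9affc000b04c000aebeb5d0002bf7ad0eb6badac00000000000000000af7eb970002c2daf440000002bdbacbc000af840000002bdfad8eb49afbebb7

theorem t5p11_check : check 11 2 14 55665 t5p11a t5p11b [t5p11c, t5p11b, t5p11a] = true := by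
  decide +kernel

theorem t5p11_count : cntB (memb 14 t5p11a) (11 ^ 2) = 71 := by
  decide +kernel

theorem t5p11_lam : ((71 : ℕ) : ℝ) ≤ lam 5 11 ^ 2 := by
  have : Fact (Nat.Prime 11) := ⟨by norm_num⟩
  exact lam_ge 5 11 2 14 55665 71 t5p11a t5p11b [t5p11c, t5p11b, t5p11a] (by norm_num) (by norm_num)
    (by norm_num) rfl t5p11_check t5p11_count

end Pool.Agent.H387.AP
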