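import Pool.Agent.R790.AP.Cert

/-!
# A subset of `F_13^2` with 101 elements and no balanced weight on its `5`-term progressions
-/

set_option autoImplicit false
set_option maxRecDepth 100000

namespace Pool.Agent.H387.AP

open Pool.Agent.R790.AP
open Pool.Agent.Results.MP_b30443_co.BlockSymmetric (lam)

/-- table 0 for `k = 5`, `p = 13`, `d = 2` -/
def t5p13a : ℕ :=
  0xc690631871bf18abcc66e0000000018a7600000000000000000c634e0e8800000000c6a9631c317be000000006129713df8b0e00000000000000000c49900000000000000000630a7168e0000c60d612e715e78be5c27a8000314b80000c4a9613400000000000006310b19558cf3c66a8000315498c79000062bb000000000c4c1e13900000000000000000000000000000062d5f14e60000c2bce8a47167e0000c4bbe2bac00000000c21f629e000018df8c68462c2f154c0000c2b4e2e6718bd8507c7b16297000018b54c2610000000018c83000062c4800000000c5dc6298319798555c57162b3000018a0dc26a0000000018d420000000031a538c75c686e2abf1a0b84edc58e62af400018c57c20380000000184060000000031a378cf4000062b7b16b784d0c5968000000018a73c55000003134f848b0000000031a258cffc4e0e2b9717b80000c5406313b0a49eb00c5510000315c9847b0000000031adb8c0a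

/-- table 1 for `k = 5`, `p = 13`, `d = 2` -/
def t5p13b : ℕ :=
  0xc21c6239f08bd81cdc27a0000000018a1d00000000000000000c3c062f2c00000000c1c16204f05ee0000000062e770f8d89e400000000000000000c430000000000000000006232f07180000c29762d5303778547c5a08000313a60000c41862e7c0000000000006228f087783c9c4ba0000303c1850100006206800000000c52ee2c280000000000000000000000000000060f3b04d40000c55468a4713060000c4ec6264000000000c5e0e1c1c00018428c3bee105304080000c5bde204709598b72c7b1627a4000186d8c61180000000183cd000060fe400000000c1906083f095f8b14c3e5e2404000189b7c59e0000000018407000000003076d87ffc241e098b087f8b6fc392e283c0001878cc5df0000000018b04000000003084988d00000606e30b458b89c3da00000000188c0c4fe8000310318b5f0000000030839887fc2ede07b709f00000c1436145b1725eb00c4a10000310f58bbe00000000307e58959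

/-- table 2 for `k = 5`, `p = 13`, `d = 2` -/
def t5p13c : ℕ :=
  0xc4a8e05c70eab92efc43080000000182db00000000000000000c217e349c00000000c52ce0bef1caa0000000062df7112f821d00000000000000000c46e80000000000000000608671cb60000c4b8e2f9f254b89a9c5ca8000307460000c47ee2c8c000000000000608df146f8a89bfb78000325f3890d0000617d400000000c220e309400000000000000000000000000000636df248e0000c5dfc86f704fa0000c2b1e0c2c00000000c601e240c000187c1c17be370f255a0000c51ce12b713db8b0fb73ce0ddc000187a9c51b8000000018b610000637ac00000000c728e4c8f12578b2fc353e119c00018479c5f0800000001896f00000000314878319c470e477f12f38b49c3bfe09a40001843bc63b8000000018ded00000000313078079000064b57140f8b4fc31f800000001859bc1638000311078c2d000000003134b8105c664e497714b20000c8fae24e7152a0001c21c800030a8b8b8f0000000031287813b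

theorem t5p13_check : check 13 2 17 502785 t5p13a t5p13b [t5p13c, t5p13b, t5p13a] = true := by
  decide +kernel

theorem t5p13_count : cntB (memb 17 t5p13a) (13 ^ 2) = 101 := by
  decide +kernel

theorem t5p13_lam : ((101 : ℕ) : ℝ) ≤ lam 5 13 ^ 2 := by
  have : Fact (Nat.Prime 13) := ⟨by norm_num⟩
  exact lam_ge 5 13 2 17 502785 101 t5p13a t5p13b [t5p13c, t5p13b, t5p13a] (by norm_num) (by norm_num)
    (by norm_num) rfl t5p13_check t5p13_count

end Pool.Agent.H387.AP
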