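import Pool.Agent.R790.AP.Cert

/-!
# A subset of `F_7^3` with 164 elements and no balanced weight on its `5`-term progressions
-/

set_option autoImplicit false
set_option maxRecDepth 100000

namespace Pool.Agent.H387.AP

open Pool.Agent.R790.AP
open Pool.Agent.Results.MP_b30443_co.BlockSymmetric (lam)

/-- table 0 for `k = 5`, `p = 7`, `d = 3` -/
def t5p7a : ℕ :=
  0x1dc7a000701dc0000000201001dc829e80000073e0577dcd00000000007640000000810000000000000001e377c007ac00701f57ae0a0000000000829f600000739ee82800001eb791e1000007d8000000000000000000000000000001ee82800761fa000007bc00001fc00000001c073dcf000007320a001f374000001d70000000000001e470000001dd000007e4009540079e037ec0000000001ef7b000799dd829c0001ef775e5000007a000825fe001cb8080000000001c00000081800001e977400771f67a800000007a800818007f400001e87dc0077de5001fe71800000007bc000000000000001ee778007e9d9001db000007c1e582a02001ef701d77edec000000000074c00744007e1ee00000729e900000001c277c00001df001cc7d5c8780000020a0000000000000007a9fa001c37cdfe001ce7d400001e600000714007a1c000000741ed000007b5f77b8007c1f27bdf2001c8001df7680000000001f700000700007980080c00715f3719d4829ec000007880076000000000000078000775c1001cd00200001f0001f9795ca00000001c6000007f65e00000829db81c000000070000791f0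

/-- table 1 for `k = 5`, `p = 7`, `d = 3` -/
def t5p7b : ℕ :=
  0x1e97bc007ede400000001bf001f776ded00000835c47f5f900000000007b8000000072c000000000000001e27cc008100083de0799d80000000000715e7000007f9c975400001d67c9dd00000774000000000000000000000000000001db744007e5ce000007ac00001db000000020e7c204000007edcf001d77f000001f10000000000001f383400002030000073c0095400765c27500000000001eb76000775fb77603001f37d607000007c80073dcf002087b0000000000208000006f800001ee7a000755d673c0000000794007380074800001e9730007c1e0001c37ec00000007d8000000000000001d981000749f9001e000000801f3749d0001de80deb72e0300000000007dc007d8006cde6000007d5de00000001f07a400001ed001f3755dd76400001dd0000000000000007b9ef001fd759c7001f278800001f70000080400731f900000801e200000769dc758007d1da7d9f5001f7001eb77c0000000001f800000800007e40075c00871e37bdf4745e7000007f0007c40000000000007f8007bdff001e6001d5001f9001e17b60e00000001df000007265e000006f1ed75c00000007f80071dd2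

/-- table 2 for `k = 5`, `p = 7`, `d = 3` -/
def t5p7c : ℕ :=
  0x1ef72c0080df900000001f9001d36bdcf00000705e7705ed00000000007ac000000076c000000000000001ef7540066c0076dcf75db5000000000076dbf000007860b6ec00001f7735fd0000074c000000000000000000000000000001e770c0075de90000071400001cb00000001dd7edd3000007adc7001e578400001e90000000000001cb77c00001b9000007a400094007e5ef76c0000000001c57c4007cdc96adf3001b5755a10000071400725df001d36740000000001e9000007c400001cb7bc0085de181c000000076c007440076c00001d77cc0076def001f77dc00000006bc000000000000001eb6d400785d50020300000665c9705d5001df7cdf57b59b0000000000794007ac0088dd1000007edeb00000002157a400001e1001fb7962f81c00001ab000000000000000725a7001f979def001f972c00001bf000007b4008460700000765db000007add37c4006c5e16bdab001fb001e581c00000000019b000007e4006ec00714006ddcd83de970dd3000006f40079c0000000000006f400785f900213001cf001a7001c5755c9000000022f000007b401000007b5e96f400000007f40088df5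

theorem t5p7_check : check 7 3 10 2425 t5p7a t5p7b [t5p7c, t5p7b, t5p7a] = true := by
  decide +kernel

theorem t5p7_count : cntB (memb 10 t5p7a) (7 ^ 3) = 164 := by
  decide +kernel

theorem t5p7_lam : ((164 : ℕ) : ℝ) ≤ lam 5 7 ^ 3 := by
  have : Fact (Nat.Prime 7) := ⟨by norm_num⟩
  exact lam_ge 5 7 3 10 2425 164 t5p7a t5p7b [t5p7c, t5p7b, t5p7a] (by norm_num) (by norm_num)
    (by norm_num) rfl t5p7_check t5p7_count

end Pool.Agent.H387.AP
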