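import Pool.Agent.R790.AP.Cert

/-!
# A subset of `F_11^2` with 82 elements and no balanced weight on its `6`-term progressions
-/

set_option autoImplicit false
set_option maxRecDepth 100000

namespace Pool.Agent.H387.AP

open Pool.Agent.R790.AP
open Pool.Agent.Results.MP_b30443_co.BlockSymmetric (lam)

/-- table 0 for `k = 6`, `p = 11`, `d = 2` -/
def t6p11a : ℕ :=
  0x24b894008de1c8be2d0018b00251002410062e76e2a0024d001c58b5c4884000020900000878000023b000008ca2c001db9ac0088a2d886646a63d7da380026388000001c6820008d61e002317ea6c0000086800889f6969d58e5e88b4007c63a722666ae1c0026a7a0008f4008aa1c94a250022e8321500226878008ca0e9bdd59b1ba8c0009564862e6f730000025a87c0000000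

/-- table 1 for `k = 6`, `p = 11`, `d = 2` -/
def t6p11b : ℕ :=
  0x1cc6ec007a5d86619700251001d5001a5bee128f213001d4001d670e3b87800001d0000007cc00001fa00000731f1001cd73c00831e97f5988220983e1f001b773c000023a88c007c1ae001eb86da5000007300076242665c1716168ec00865ba705ef8f62a001da7780073c0089a26749c4001e57f9cb001f57ac0075a23625be7ca3b83c007699c879f48d000001ca7580000000

/-- table 2 for `k = 6`, `p = 11`, `d = 2` -/
def t6p11c : ℕ :=
  0x1e085c0075e038c2330021b001d100211bedb7781ba001d60025c81df86e0000021e0000079800001c2000007e5da0024f6f400725e1765fb919b17c9a0001dd82000001f77300074a2b001db789e600000844007f5bf812617e5f963c007b6039b9a283db1001b38c4007ac0069db574e0e001e47b617001dc7b8007bdc67fe64666026e00072213939947dc00001d38080000000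

theorem t6p11_check : check 11 2 10 3054 t6p11a t6p11b [t6p11c, t6p11c, t6p11b, t6p11a] = true := by
  decide +kernel

theorem t6p11_count : cntB (memb 10 t6p11a) (11 ^ 2) = 82 := by
  decide +kernel

theorem t6p11_lam : ((82 : ℕ) : ℝ) ≤ lam 6 11 ^ 2 := by
  have : Fact (Nat.Prime 11) := ⟨by norm_num⟩
  exact lam_ge 6 11 2 10 3054 82 t6p11a t6p11b [t6p11c, t6p11c, t6p11b, t6p11a] (by norm_num) (by norm_num)
    (by norm_num) rfl t6p11_check t6p11_count

end Pool.Agent.H387.AP
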