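import Pool.Agent.R790.AP.Cert

/-!
# A subset of `F_11^2` with 87 elements and no balanced weight on its `7`-term progressions
-/

set_option autoImplicit false
set_option maxRecDepth 100000

namespace Pool.Agent.H387.AP

open Pool.Agent.R790.AP
open Pool.Agent.Results.MP_b30443_co.BlockSymmetric (lam)

/-- table 0 for `k = 7`, `p = 11`, `d = 2` -/
def t7p11a : ℕ :=
  0x5648066282dc48a4b337f00000051d0000000007432bd4854d14e06287816be50a7b674e0005b764a0006a682d7736f57ce48b5f38244272dc4ea6d862d0000005de71532d53aa064ef00067c00065670855e76f5046ac69e84f5380005b800076977051500054066b4707266283c60005a17726a869d80c0000004fa4f58485170009020000000000006770000000000000000000005ac7d45090005795fb00000070e6246925236330000007905cf65f65b4f22a6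

/-- table 1 for `k = 7`, `p = 11`, `d = 2` -/
def t7p11b : ℕ :=
  0x6777de48092b9888d4b25000000a3d0000000007f79fd9f4ce47d096f93a832a9a52e55000068968d00070256c6957de1a199d8f5765a6b8d57f363c87e0000007e774687a4531f156a0007fb00064565872d6087e187d9e7791866000a63000698451a2c00081b6cf84da635d3c81000ae38ce8a861f4d10000009929055008a70007790000000000007810000000000000000000008b466d61200060d6580000008096b087e956a7b0000004615a28367fb81894a

/-- table 2 for `k = 7`, `p = 11`, `d = 2` -/
def t7p11c : ℕ :=
  0x82d6f48da7374e246091b0000006bc00000000047570d41a49c65b4d73e069547d3545b100079c5da0004ac30157b4d594d68361b5165ee7a670287376a0000006c15f162e8a87d88b40004c700080b5e47665206923e26d44fc69e00045100069d8a75990005153ac89315974f4f100036c4e447769a64800000063275d8c764c00042c00000000000053400000000000000000000038e3788b100075f5d600000062d8165e56c71be00000091359b40445e45881e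

/-- table 3 for `k = 7`, `p = 11`, `d = 2` -/
def t7p11d : ℕ :=
  0x76f1cf87b903997bb10010000003530000000008217f1a592dd9696a364947573df0fae10007c7a1d000ad7e4b87982fa0762957964167f8d17c14713550000006736e7bd5b157e19650009030006338f779da518919690cd5c77070006a70006436af5cb000a9fdb34df9bb8eb50f00079f5377f18d39350000006034d136176b000631000000000000927000000000000000000000ba3c0d7e70009b5b2d0000004f75ab5954ffaa7000000577d67a4da17cbb763

theorem t7p11_check : check 11 2 12 12159 t7p11a t7p11b [t7p11c, t7p11d, t7p11c, t7p11b, t7p11a] = true := by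
  decide +kernel

theorem t7p11_count : cntB (memb 12 t7p11a) (11 ^ 2) = 87 := by
  decide +kernel

theorem t7p11_lam : ((87 : ℕ) : ℝ) ≤ lam 7 11 ^ 2 := by
  have : Fact (Nat.Prime 11) := ⟨by norm_num⟩
  exact lam_ge 7 11 2 12 12159 87 t7p11a t7p11b [t7p11c, t7p11d, t7p11c, t7p11b, t7p11a] (by norm_num) (by norm_num)
    (by norm_num) rfl t7p11_check t7p11_count

end Pool.Agent.H387.AP
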