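import Pool.Agent.R790.AP.Cert

/-!
# A subset of `F_13^2` with 122 elements and no balanced weight on its `7`-term progressions
-/

set_option autoImplicit false
set_option maxRecDepth 100000

namespace Pool.Agent.H387.AP

open Pool.Agent.R790.AP
open Pool.Agent.Results.MP_b30443_co.BlockSymmetric (lam)

/-- table 0 for `k = 7`, `p = 13`, `d = 2` -/
def t7p13a : ℕ :=
  0x3435b22ea3c84af00000041621d32e27c2d416600000039f1b43610002d30000005b60003610000000001402e86140004044360000003891b13f12de41242700000039520745a2331e61ab0004ff41f00044321d0001253174ea2f500044d0000001274394a437f35f3ba0000003db2fa00022b2dd43000000042d1ce45d1ee24b0d52a658b2df3673bb2492100e437758e31037d0000000003d228c4be2ca0004800000000002620001f42bf1152960003950003b526c29d0002b254835c34847b00025e15f31b6212eb4184520000003e91fd41822943a47d00000000026635d2482d40d52b50002a727342526c2c31942ea0002e03683e400046b3ff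

/-- table 1 for `k = 7`, `p = 13`, `d = 2` -/
def t7p13b : ℕ :=
  0x43a08729242e1b20000002dd2982734a840e43a00000038829c19d00048d0000000df00046e00000000044e3ff1060003732a500000037e3141ce27942027100000034135618948539a4340001893390001ad4df0004b33911962b90001a00000004743c506a26e3fc20a0000003132b100049e5371c600000030f3161d854a4d747b4281402ef3d221d4da48a4823f115222c45400000000033330e16429100020500000000023b0004c65804e33e80003420001ca4ad4500004281d527341226300047e4ae37513525f41c21100000034334516f42d4511fa0000000002f11b949848d51c4200002722e81da4a94884bd3be0002823cc232000397320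

/-- table 2 for `k = 7`, `p = 13`, `d = 2` -/
def t7p13c : ℕ :=
  0x2b54e260618243500000023964b63843528c2a100000021766e6b100022900000050000016500000000031c2ec5140001ef3c10000001ed6146455e511a3f40000002615b75b740f24b2e30004e421b0005ed3d70002e73635425a300044e0000002e52a957958c1c442c00000028b53900046014f4340000001e45f35e83ce2f931333d50e5b220760a36b20b2f82ce4fc5f31850000000001e95315d25ed0003d10000000006190003c21602aa3160002730006323aa23200030647a52e1543f80002bc2a430e4c85b70f93e20000002055a16123fb0e64110000000005b66de3b52162e83a50005cc58d5833d324722c3940005c01ea3fd000296205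

/-- table 3 for `k = 7`, `p = 13`, `d = 2` -/
def t7p13d : ℕ :=
  0x3f922715956d33100000060525d0ab1ab5817db0000005e12e10ff00054b0000001330005f50000000007094b70010005913250000006752ab0551e55c53450000005ef2351292cf8c76d90001855770000a32b70006df4470d91bb0003e700000075d30f34f16b61f47d00000056b29500020b59740900000061d2af0232514277974470ab15d5dd0993417137a13f10a51ff5b10000000006812c70751cd0003b10000000002f100036551f7195350005c90000fb2d761f00049d12f2637012b100052d6fb52102125b6033d30000005fb29712b3bb57b34d00000000024307533356f6ab36900029328d15928d5397633e500021962143700032d615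

theorem t7p13_check : check 13 2 12 6237 t7p13a t7p13b [t7p13c, t7p13d, t7p13c, t7p13b, t7p13a] = true := by
  decide +kernel

theorem t7p13_count : cntB (memb 12 t7p13a) (13 ^ 2) = 122 := by
  decide +kernel

theorem t7p13_lam : ((122 : ℕ) : ℝ) ≤ lam 7 13 ^ 2 := by
  have : Fact (Nat.Prime 13) := ⟨by norm_num⟩
  exact lam_ge 7 13 2 12 6237 122 t7p13a t7p13b [t7p13c, t7p13d, t7p13c, t7p13b, t7p13a] (by norm_num) (by norm_num)
    (by norm_num) rfl t7p13_check t7p13_count

end Pool.Agent.H387.AP
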