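import Pool.Agent.R790.AP.Cert

/-!
# A subset of `F_11^2` with 89 elements and no balanced weight on its `8`-term progressions
-/

set_option autoImplicit false
set_option maxRecDepth 100000

namespace Pool.Agent.H387.AP

open Pool.Agent.R790.AP
open Pool.Agent.Results.MP_b30443_co.BlockSymmetric (lam)

/-- table 0 for `k = 8`, `p = 11`, `d = 2` -/
def t8p11a : ℕ :=
  0x3e6c01bbe70ddb36000003e7ce5b3e6ed9b3600d9d8076e5b3600d9b806cf9f3e00d9f3e6cf003d00d9c3a0001f3b6c01f366cd9b378cf800000e5b367cedd806cd9b007201d807cf9d377cf80007ae00397ad9f369a01f3670f9b006cf803e00d9f3e6c0003d00e9b80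

/-- table 1 for `k = 8`, `p = 11`, `d = 2` -/
def t8p11b : ℕ :=
  0x367601cb48105dba000003766edd3a7aedd3d0101a8074edf3e00f9d007cd19370109d3574e803b00f9c3e0001cb57601cc17cf1d408cc800000f1ebc74f5b807cf61007e01a8074e9f396ee000072f803f76f9ac002019ba7ae9f8074e803a0101d327c0003b00e5f80

/-- table 2 for `k = 8`, `p = 11`, `d = 2` -/
def t8p11c : ℕ :=
  0x367401d3874e9f3f000003d72f9eb57cf5d3f00f1d006ad9f3600d9d807cfdebd00c9bb774d803200f9d390001dc27a019b576e5f332ce800000f5c4074ce00074f1d00740208074d9aba70ec0006ad803474d9bbc9a01cba78e9d0084c803600f1d3f780003800fdb80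

/-- table 3 for `k = 8`, `p = 11`, `d = 2` -/
def t8p11d : ℕ :=
  0x3e7a01f3e6cd9cb900000367cd9dbb6ce9f3600d9f007cf9b3e00f9e006cdddb600f9cbe7cf003e00d9f370001b367401f3c72f5d3e8cf800000d9eb66cf5b0074e5b006c01b806ce9dbe76dc0007af003c6cf9f369a01f3e6ed9c806cf803a00d9b39700003800d9d80

theorem t8p11_check : check 11 2 7 464 t8p11a t8p11b [t8p11c, t8p11d, t8p11d, t8p11c, t8p11b, t8p11a] = true := by
  decide +kernel

theorem t8p11_count : cntB (memb 7 t8p11a) (11 ^ 2) = 89 := by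
  decide +kernel

theorem t8p11_lam : ((89 : ℕ) : ℝ) ≤ lam 8 11 ^ 2 := by
  have : Fact (Nat.Prime 11) := ⟨by norm_num⟩
  exact lam_ge 8 11 2 7 464 89 t8p11a t8p11b [t8p11c, t8p11d, t8p11d, t8p11c, t8p11b, t8p11a] (by norm_num) (by norm_num)
    (by norm_num) rfl t8p11_check t8p11_count

end Pool.Agent.H387.AP
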