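import Pool.Agent.R790.AP.Cert

/-!
# A subset of `F_13^2` with 124 elements and no balanced weight on its `8`-term progressions
-/

set_option autoImplicit false
set_option maxRecDepth 100000

namespace Pool.Agent.H387.AP

open Pool.Agent.R790.AP
open Pool.Agent.Results.MP_b30443_co.BlockSymmetric (lam)

/-- table 0 for `k = 8`, `p = 13`, `d = 2` -/
def t8p13a : ℕ :=
  0x1746998c5998a0015d001d03997a0014a5fc003f4400014b5c80065d8467d3432cfe445ab001540011b5f8004940049000565fc0017f6cd80001595891177d976b4004458c491a86ed4d5618f0013d67d70698000019248526378005815a53dab001110000040920568ea000ef4e8005551b3754a6459900000575b4000bb46d467690955dca3d94500189531435b00038556000007f06e5e00041c00000003980044d61554fd001014c5445c9eb6194160c000015f46980681ea00000001940012052000418ed51800000d64e1a75b10d4b1a5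

/-- table 1 for `k = 8`, `p = 13`, `d = 2` -/
def t8p13b : ℕ :=
  0x1223714459468000a40002041cfa000f7494002551e000244e00060d7d444ab4f9ae478920016200145458005a400370004a89a000340fc2d00107404744ecf61a40042d0d10c9b3f89f4110c000b2240a0294000012452483468004c8b54bd390011a00000371ee509000018e36000590d035ca44dd2300000004a00015a3b144485433c5215e8f800099578d75c00049cc3000002d93a518001b8000000049c00268dc174b10017554d8b3292f3415c2f800000f7594c63f0dd0000000127000e76840024c712bc000017d2390f3250d398df

/-- table 2 for `k = 8`, `p = 13`, `d = 2` -/
def t8p13c : ℕ :=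
  0xcb3cced4890d0014a0016e2a8da001303740051970001814bc001fc7140d834e8e35c4b8000aa000a54900036c0050400250ad0016236160001612a178380e4710005d4ba450cd409703f4e50017713525610000011d554e547800478d8484c00012700000360fa3b4d4000d97140042d0e465622491300000594b800121311363ec96314af4a0e4001342e966160004115e0000055db3480006d4000000053c00430ff51d530016e395423d44443cf133800000f74ed24110d100000000f3001094bc0070534374000014352cb03de1e4d522

/-- table 3 for `k = 8`, `p = 13`, `d = 2` -/
def t8p13d : ℕ :=
  0x11740cbb22d790012d0011a7852a001073dc00681aa0018827c0037d06315164d4e93618300118001733000043c004dc0058535001636b96b000b75b57b1f9072780039d257f5682f51c47cf8001127f1432a400000a52e5ea5880032191364d40012600000708703bdba00122284002d17f6ad28478a9000006d56c001426b4b8209965acde3815700122450f8510005b101000001bd1d268005380000000470006fd3c5fd770009443c6751d1a44cea5a4000012b2f90e660e000000000ca0016818000479e669800000e259d12530404c4d2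

theorem t8p13_check : check 13 2 10 2288 t8p13a t8p13b [t8p13c, t8p13d, t8p13d, t8p13c, t8p13b, t8p13a] = true := by
  decide +kernel

theorem t8p13_count : cntB (memb 10 t8p13a) (13 ^ 2) = 124 := by
  decide +kernel

theorem t8p13_lam : ((124 : ℕ) : ℝ) ≤ lam 8 13 ^ 2 := by
  have : Fact (Nat.Prime 13) := ⟨by norm_num⟩
  exact lam_ge 8 13 2 10 2288 124 t8p13a t8p13b [t8p13c, t8p13d, t8p13d, t8p13c, t8p13b, t8p13a] (by norm_num) (by norm_num)
    (by norm_num) rfl t8p13_check t8p13_count

end Pool.Agent.H387.AP
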